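import Pool.Agent.Lib.MP_b1a3a4_al.MVS.TH.Iface

/-!
# Project MVS, part V: module FAM (13.8)
-/

set_option linter.all false

namespace Pool.Agent.Lib.MP_b1a3a4_al.MVS.TH.H21

open Finsupp

theorem fam : FamStatement := by
  refine ⟨?_, ?_⟩
  · intro W _ q f
    constructor
    · intro hf i ε
      exact hf.comp_continuous (continuous_fi i ε) (fun x => fi_mem_boundary i ε x)
    · intro hf
      have h1 : Cube.boundary (Fin (q + 1)) =
          ⋃ p : Fin (q + 1) × Bool, {x : Cu (q + 1) | x p.1 = ev p.2} := by
        ext x
        simp only [Set.mem_iUnion, Set.mem_setOf_eq]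
        constructor
        · rintro ⟨i, h | h⟩
          · exact ⟨(i, false), h⟩
          · exact ⟨(i, true), h⟩
        · rintro ⟨⟨i, ε⟩, h⟩
          refine ⟨i, ?_⟩
          cases ε
          · left; exact h
          · right; exact h
      rw [h1]
      refine LocallyFinite.continuousOn_iUnion (locallyFinite_of_finite _) ?_ ?_
      · rintro ⟨i, ε⟩
        exact isClosed_eq (continuous_apply i) continuous_const
      · rintro ⟨i, ε⟩
        have h2 : Set.EqOn f (fun x => f (fi i ε (rem i x))) {x : Cu (q + 1) | x i = ev ε} := by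
          intro x hx
          have h3 : fi i ε (rem i x) = x := by
            have hx' : x i = ev ε := hx
            rw [fi, ← hx', ins_rem]
          simp only [h3]
        exact (((hf i ε).comp (continuous_rem i)).continuousOn).congr h2
  · intro W q a ha
    classical
    by_cases hW : ∃ w : W, True
    · obtain ⟨w₀, -⟩ := hW
      refine ⟨fun x => if h : ∃ p : Fin (q + 1) × Bool × Cu q, x = fi p.1 p.2.1 p.2.2 then
        a h.choose.1 h.choose.2.1 h.choose.2.2 else w₀, ?_⟩
      intro i ε x
      have hex : ∃ p : Fin (q + 1) × Bool × Cu q, fi i ε x = fi p.1 p.2.1 p.2.2 :=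
        ⟨(i, ε, x), rfl⟩
      simp only []
      rw [dif_pos hex]
      exact (ha _ _ _ _ _ _ hex.choose_spec).symm
    · exfalso
      exact hW ⟨a 0 false (fun _ => 0), trivial⟩

end Pool.Agent.Lib.MP_b1a3a4_al.MVS.TH.H21
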