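import Pool.Agent.Lib.MP_b1a3a4_al.MVS.TH.Iface

/-!
# Project MVS, part V: module GRID1 (13.21)
-/

set_option linter.all false

namespace Pool.Agent.Lib.MP_b1a3a4_al.MVS.TH.H21

open Finsupp

lemma halfL_val (x : Cu 1) : ((halfL 0 x) 0 : ℝ) = (x 0 : ℝ) / 2 := by
  have h1 : (0 : ℝ) ≤ (x 0 : ℝ) / 2 := by have := (x 0).2.1; linarith
  have h2 : (x 0 : ℝ) / 2 ≤ 1 := by have := (x 0).2.2; linarith
  simp only [halfL, Function.update_self]
  rw [Set.projIcc_of_mem zero_le_one ⟨h1, h2⟩]

lemma halfR_val (x : Cu 1) : ((halfR 0 x) 0 : ℝ) = (1 + (x 0 : ℝ)) / 2 := by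
  have h1 : (0 : ℝ) ≤ (1 + (x 0 : ℝ)) / 2 := by have := (x 0).2.1; linarith
  have h2 : (1 + (x 0 : ℝ)) / 2 ≤ 1 := by have := (x 0).2.2; linarith
  simp only [halfR, Function.update_self]
  rw [Set.projIcc_of_mem zero_le_one ⟨h1, h2⟩]

lemma cu1_ext {x y : Cu 1} (h : (x 0 : ℝ) = y 0) : x = y := by
  funext i
  have : i = 0 := Subsingleton.elim _ _
  subst this
  exact Subtype.ext h

lemma continuous_halfL : Continuous (halfL (q := 1) 0) := by
  refine continuous_pi (fun i => ?_)
  have : i = 0 := Subsingleton.elim _ _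
  subst this
  simp only [halfL, Function.update_self]
  fun_prop

lemma continuous_halfR : Continuous (halfR (q := 1) 0) := by
  refine continuous_pi (fun i => ?_)
  have : i = 0 := Subsingleton.elim _ _
  subst this
  simp only [halfR, Function.update_self]
  fun_prop

theorem grid1 : Grid1Statement := by
  intro Z _ B y P _ cl hcl a m
  induction m generalizing a with
  | zero =>
    intro ha hy
    simp only [pow_zero, List.range_one, List.map_cons, List.map_nil, List.prod_cons,
      List.prod_nil, mul_one]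
    congr 1
    funext x
    congr 1
    apply cu1_ext
    rw [sc_val 0 _ x 0 (by simp)]
    simp
  | succ m ih =>
    intro ha hy
    have hmid : ∀ x : Cu 1, (x 0 : ℝ) = 1 / 2 → a x = y := by
      intro x hx
      refine hy x ⟨2 ^ m, ?_⟩
      rw [hx]
      push_cast
      ring
    have hbd : ∀ x : Cu 1, x ∈ Cube.boundary (Fin 1) → (x 0 : ℝ) = 0 ∨ (x 0 : ℝ) = 1 := by
      rintro x ⟨i, h | h⟩
      · have : i = 0 := Subsingleton.elim _ _
        subst this
        left; rw [h]; rfl
      · have : i = 0 := Subsingleton.elim _ _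
        subst this
        right; rw [h]; rfl
    have h0 : ∀ x : Cu 1, (x 0 : ℝ) = 0 → a x = y := fun x hx => hy x ⟨0, by rw [hx]; simp⟩
    have h1 : ∀ x : Cu 1, (x 0 : ℝ) = 1 → a x = y := fun x hx =>
      hy x ⟨2 ^ (m + 1), by rw [hx]; simp⟩
    have hL : Good B y (fun x => a (halfL 0 x)) := by
      refine ⟨ha.1.comp continuous_halfL, fun x => ha.2.1 _, fun x hx => ?_⟩
      rcases hbd x hx with h | h
      · exact h0 _ (by rw [halfL_val, h]; norm_num)
      · exact hmid _ (by rw [halfL_val, h])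
    have hR : Good B y (fun x => a (halfR 0 x)) := by
      refine ⟨ha.1.comp continuous_halfR, fun x => ha.2.1 _, fun x hx => ?_⟩
      rcases hbd x hx with h | h
      · exact hmid _ (by rw [halfR_val, h]; norm_num)
      · exact h1 _ (by rw [halfR_val, h]; norm_num)
    have hLg : ∀ x : Cu 1, (∃ j : ℕ, (x 0 : ℝ) * 2 ^ m = j) → a (halfL 0 x) = y := by
      rintro x ⟨j, hj⟩
      refine hy _ ⟨j, ?_⟩
      rw [halfL_val, ← hj, pow_succ]
      ring
    have hRg : ∀ x : Cu 1, (∃ j : ℕ, (x 0 : ℝ) * 2 ^ m = j) → a (halfR 0 x) = y := by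
      rintro x ⟨j, hj⟩
      refine hy _ ⟨2 ^ m + j, ?_⟩
      push_cast
      rw [halfR_val, ← hj, pow_succ]
      ring
    rw [hcl.mul a ha 0 hmid, ih _ hL hLg, ih _ hR hRg]
    have hpow : 2 ^ (m + 1) = 2 ^ m + 2 ^ m := by ring
    rw [hpow, List.range_add, List.map_append, List.prod_append, List.map_map]
    congr 2
    · refine List.map_congr_left (fun p hp => ?_)
      rw [List.mem_range] at hp
      congr 1
      funext x
      congr 1
      apply cu1_ext
      rw [halfL_val, sc_val m _ x 0 hp, sc_val (m + 1) _ x 0 (by rw [hpow]; omega), pow_succ]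
      field_simp
    · refine List.map_congr_left (fun p hp => ?_)
      rw [List.mem_range] at hp
      simp only [Function.comp]
      congr 1
      funext x
      congr 1
      apply cu1_ext
      rw [halfR_val, sc_val m _ x 0 hp, sc_val (m + 1) _ x 0 (by rw [hpow]; omega), pow_succ]
      push_cast
      field_simp
      ring

end Pool.Agent.Lib.MP_b1a3a4_al.MVS.TH.H21
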