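import Pool.Agent.Lib.MP_b1a3a4_al.MVS.TH.Iface

/-!
# Project MVS, part V: module ML (13.28)
-/

set_option linter.all false

namespace Pool.Agent.Lib.MP_b1a3a4_al.MVS.TH.H21

open Finsupp

/-- summation over the corners of a cube: split a coordinate -/
lemma sum_ins {M : Type} [AddCommMonoid M] {q : ℕ} (i : Fin (q + 1))
    (F : (Fin (q + 1) → Bool) → M) :
    ∑ b, F b = ∑ b' : Fin q → Bool, (F (ins i true b') + F (ins i false b')) := by
  classical
  have h1 : ∑ b, F b = ∑ p : Bool × (Fin q → Bool), F (ins i p.1 p.2) := by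
    refine (Fintype.sum_equiv (Fin.insertNthEquiv (fun _ => Bool) i) _ _ ?_).symm
    intro p
    rfl
  rw [h1, Fintype.sum_prod_type, Fintype.sum_bool, Finset.sum_add_distrib]

lemma wt_ins {q : ℕ} (i : Fin (q + 1)) (ε : Bool) (b : Fin q → Bool) (x : Cu (q + 1)) :
    wt (ins i ε b) x = (if ε then (x i : ℝ) else 1 - (x i : ℝ)) * wt b (rem i x) := by
  unfold wt
  rw [Fin.prod_univ_succAbove _ i]
  simp

lemma wt_nonneg {q : ℕ} (b : Fin q → Bool) (x : Cu q) : 0 ≤ wt b x := by
  unfold wt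
  refine Finset.prod_nonneg (fun i _ => ?_)
  split_ifs
  · exact (x i).2.1
  · linarith [(x i).2.2]

lemma sum_wt : ∀ {q : ℕ} (x : Cu q), ∑ b, wt b x = 1
  | 0, x => by simp [wt]
  | q + 1, x => by
    rw [sum_ins 0]
    have : ∀ b' : Fin q → Bool, wt (ins 0 true b') x + wt (ins 0 false b') x = wt b' (rem 0 x) := by
      intro b'
      rw [wt_ins, wt_ins]
      simp only [if_true, Bool.false_eq_true, if_false]
      ring
    rw [Finset.sum_congr rfl (fun b' _ => this b')]
    exact sum_wt (rem 0 x)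

lemma continuous_wt {q : ℕ} (b : Fin q → Bool) : Continuous (wt b) := by
  unfold wt
  refine continuous_finset_prod _ (fun i _ => ?_)
  split_ifs
  · fun_prop
  · fun_prop

lemma ml_cont (V : Type) (q : ℕ) (c : Lab V q) : Continuous (ml c) := by
  classical
  refine continuous_pi (fun v => ?_)
  have : (fun x => ml c x v) = fun x => ∑ b, if c b = v then wt b x else 0 := by
    funext x; exact ml_apply c x v
  rw [this]
  refine continuous_finset_sum _ (fun b _ => ?_)
  split_ifs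
  · exact continuous_wt b
  · exact continuous_const

lemma ml_face (V : Type) (q : ℕ) (c : Lab V (q + 1)) (i : Fin (q + 1)) (ε : Bool) (x : Cu q) :
    ml c (fi i ε x) = ml (fc i ε c) x := by
  classical
  funext v
  rw [ml_apply, ml_apply, sum_ins i]
  refine Finset.sum_congr rfl (fun b' _ => ?_)
  rw [wt_ins, wt_ins]
  cases ε <;> simp [fi, fc] <;> congr!

lemma ml_deg (V : Type) (q : ℕ) (c : Lab V q) (i : Fin (q + 1)) (x : Cu (q + 1)) :
    ml (dg i c) x = ml c (rem i x) := by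
  classical
  funext v
  rw [ml_apply, ml_apply, sum_ins i]
  refine Finset.sum_congr rfl (fun b' _ => ?_)
  rw [wt_ins, wt_ins]
  simp only [dg, rem_ins, if_true, Bool.false_eq_true, if_false]
  split_ifs
  · ring
  · ring

lemma ml_nonneg (V : Type) (q : ℕ) (c : Lab V q) (x : Cu q) (v : V) : 0 ≤ ml c x v := by
  classical
  rw [ml_apply]
  refine Finset.sum_nonneg (fun b _ => ?_)
  split_ifs
  · exact wt_nonneg b x
  · exact le_refl 0

lemma ml_sum (V : Type) (q : ℕ) (c : Lab V q) (x : Cu q) : ∑ v ∈ img c, ml c x v = 1 := by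
  classical
  have h1 : ∑ v ∈ img c, ml c x v = ∑ v ∈ img c, ∑ b, if c b = v then wt b x else 0 :=
    Finset.sum_congr rfl (fun v _ => ml_apply c x v)
  rw [h1, Finset.sum_comm, ← sum_wt x]
  refine Finset.sum_congr rfl (fun b _ => ?_)
  rw [Finset.sum_ite_eq, if_pos]
  exact (mem_img c _).2 ⟨b, rfl⟩

lemma ml_ne (V : Type) (q : ℕ) (c : Lab V q) (x : Cu q) (v : V) (hv : ml c x v ≠ 0) :
    ∃ b, c b = v ∧ ∀ i, if b i then (x i : ℝ) ≠ 0 else (x i : ℝ) ≠ 1 := by
  classical
  rw [ml_apply] at hv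
  obtain ⟨b, -, hb⟩ := Finset.exists_ne_zero_of_sum_ne_zero hv
  have h1 : c b = v := by
    by_contra h
    exact hb (if_neg h)
  rw [if_pos h1] at hb
  refine ⟨b, h1, fun i => ?_⟩
  unfold wt at hb
  have h2 := (Finset.prod_ne_zero_iff.1 hb) i (Finset.mem_univ i)
  split_ifs with h3
  · rwa [if_pos h3] at h2
  · rw [if_neg h3] at h2
    intro h4
    exact h2 (by linarith)

theorem ml : MlStatement := by
  refine ⟨ml_cont, ml_face, ml_deg, ml_nonneg, ml_sum, ml_ne, ?_⟩
  intro V K h t q c x hK hU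
  refine ⟨ml_nonneg V q c x, img c, ⟨hK, ?_⟩, ?_, ml_sum V q c x⟩
  · intro v hv
    obtain ⟨b, rfl⟩ := (mem_img c v).1 hv
    exact hU b
  · intro v hv
    by_contra hne
    obtain ⟨b, hb, -⟩ := ml_ne V q c x v hne
    exact hv ((mem_img c v).2 ⟨b, hb⟩)

end Pool.Agent.Lib.MP_b1a3a4_al.MVS.TH.H21
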